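import Mathlib
import Pool.Agent.Helper213.Sidon.Prime

set_option autoImplicit false

namespace Pool.Agent.helper885_bc

open Finset

lemma exists_prime_half (k : ℕ) (hk : 2 ≤ k) :
    ∃ q : ℕ, q.Prime ∧ q ∣ k.factorial ∧ ¬ q ^ 2 ∣ k.factorial := by
  obtain ⟨q, hq, h1, h2⟩ := Nat.exists_prime_lt_and_le_two_mul (k / 2) (by omega)
  have hqk : q ≤ k := by omega
  have hkq : k < 2 * q := by omega
  refine ⟨q, hq, (Nat.Prime.dvd_factorial hq).2 hqk, ?_⟩
  intro h
  have h22 := hq.two_le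
  have hlog : Nat.log q k < 2 := by
    apply Nat.log_lt_of_lt_pow (by omega)
    nlinarith
  rw [hq.pow_dvd_factorial_iff hlog] at h
  have hs : ∑ i ∈ Finset.Ico 1 2, k / q ^ i = k / q := by
    simp
  rw [hs] at h
  have : k / q < 2 := by
    rw [Nat.div_lt_iff_lt_mul hq.pos]
    omega
  omega

lemma decomp (n k : ℕ) (hkn : k ≤ n) (s : Finset ℕ) (hs : ∀ q ∈ s, q.Prime)
    (hbig : ∀ q ∈ s, k < q) (hC : n.choose k = ∏ q ∈ s, q) :
    ∃ D : ℕ → ℕ, ∃ A : ℕ → Finset ℕ, (∀ i < k, n - i = D i * ∏ q ∈ A i, q) ∧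
      (∀ i, A i ⊆ s) ∧ (∏ i ∈ range k, D i = k.factorial) := by
  set A : ℕ → Finset ℕ := fun i => s.filter (fun q => q ∣ n - i) with hA
  have hP : ∀ i, (∏ q ∈ A i, q) ∣ n - i := by
    intro i
    apply Finset.prod_primes_dvd
    · intro q hq
      exact (hs q (Finset.mem_filter.1 hq).1).prime
    · intro q hq
      exact (Finset.mem_filter.1 hq).2
  have hpos : ∀ i, 0 < ∏ q ∈ A i, q := by
    intro i
    apply Finset.prod_pos
    intro q hq
    exact (hs q (Finset.mem_filter.1 hq).1).pos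
  set D : ℕ → ℕ := fun i => (n - i) / ∏ q ∈ A i, q with hD
  have hDP : ∀ i, n - i = D i * ∏ q ∈ A i, q := by
    intro i
    exact (Nat.div_mul_cancel (hP i)).symm
  have hdesc : ∏ i ∈ range k, (n - i) = k.factorial * ∏ q ∈ s, q := by
    rw [← Nat.descFactorial_eq_prod_range, Nat.descFactorial_eq_factorial_mul_choose, hC]
  have hdvd : (∏ q ∈ s, q) ∣ ∏ i ∈ range k, ∏ q ∈ A i, q := by
    apply Finset.prod_primes_dvd
    · intro q hq
      exact (hs q hq).prime
    · intro q hq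
      have h1 : q ∣ ∏ i ∈ range k, (n - i) := by
        rw [hdesc]
        exact Dvd.dvd.mul_left (Finset.dvd_prod_of_mem _ hq) _
      obtain ⟨i, hi, hqi⟩ := ((hs q hq).prime.dvd_finsetProd_iff _).1 h1
      have h2 : q ∈ A i := Finset.mem_filter.2 ⟨hq, hqi⟩
      exact (Finset.dvd_prod_of_mem _ h2).trans (Finset.dvd_prod_of_mem (fun i => ∏ q ∈ A i, q) hi)
  obtain ⟨m, hm⟩ := hdvd
  have hprod : (∏ i ∈ range k, D i) * m = k.factorial := by
    have h1 : ∏ i ∈ range k, (n - i) = (∏ i ∈ range k, D i) * ∏ i ∈ range k, ∏ q ∈ A i, q := by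
      rw [← Finset.prod_mul_distrib]
      exact Finset.prod_congr rfl (fun i _ => hDP i)
    rw [hdesc, hm] at h1
    have h2 : 0 < ∏ q ∈ s, q := Finset.prod_pos (fun q hq => (hs q hq).pos)
    have h3 : (∏ q ∈ s, q) * k.factorial = (∏ q ∈ s, q) * ((∏ i ∈ range k, D i) * m) := by
      rw [mul_comm, h1]; ring
    exact (Nat.eq_of_mul_eq_mul_left h2 h3).symm
  have hm1 : m = 1 := by
    by_contra hne
    obtain ⟨l, hl, hlm⟩ := Nat.exists_prime_and_dvd hne
    have h1 : l ∣ k.factorial := by rw [← hprod]; exact Dvd.dvd.mul_left hlm _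
    have h2 : l ≤ k := (Nat.Prime.dvd_factorial hl).1 h1
    have h3 : l ∣ ∏ i ∈ range k, ∏ q ∈ A i, q := by rw [hm]; exact Dvd.dvd.mul_left hlm _
    obtain ⟨i, -, hli⟩ := (hl.prime.dvd_finsetProd_iff _).1 h3
    obtain ⟨q, hq, hlq⟩ := (hl.prime.dvd_finsetProd_iff _).1 hli
    have hqs : q ∈ s := (Finset.mem_filter.1 hq).1
    have h4 : l = q := (Nat.prime_dvd_prime_iff_eq hl (hs q hqs)).1 hlq
    have h5 := hbig q hqs
    omega
  refine ⟨D, A, fun i _ => hDP i, fun i => Finset.filter_subset _ _, ?_⟩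
  rw [hm1, mul_one] at hprod
  exact hprod

/-- Two numbers with a different number of block primes. -/
lemma caseA (r K a a' N N' D D' : ℕ) (ρ p P P' : ℝ) (hK : 1 ≤ K) (hρ1 : 1 ≤ ρ)
    (hρ : ρ ^ r ≤ 1 + 1 / (2 * K)) (hp : 4 * K ≤ p) (ha : a ≤ r) (haa : a < a')
    (hDK : D ≤ K) (hD' : 1 ≤ D') (hP2 : P ≤ (ρ * p) ^ a) (hP'1 : p ^ a' ≤ P')
    (hN : (N : ℝ) = D * P) (hN' : (N' : ℝ) = D' * P') (hdiff : (N' : ℝ) ≤ N + r)
    (hbig : r < N) : False := by
  have hK' : (1 : ℝ) ≤ K := by exact_mod_cast hK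
  have hp1 : 1 ≤ p := by linarith
  have hpa : 0 < p ^ a := by positivity
  have hρa : ρ ^ a ≤ 2 := by
    calc ρ ^ a ≤ ρ ^ r := pow_le_pow_right₀ hρ1 ha
      _ ≤ 1 + 1 / (2 * K) := hρ
      _ ≤ 2 := by
        have : 1 / (2 * (K : ℝ)) ≤ 1 := by
          rw [div_le_one (by positivity)]; linarith
        linarith
  have h1 : (N : ℝ) ≤ 2 * K * p ^ a := by
    have hDK' : (D : ℝ) ≤ K := by exact_mod_cast hDK
    calc (N : ℝ) = D * P := hN
      _ ≤ D * (ρ * p) ^ a := by gcongr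
      _ = D * (ρ ^ a * p ^ a) := by rw [mul_pow]
      _ ≤ K * (2 * p ^ a) := by gcongr
      _ = _ := by ring
  have h2 : (4 * K) * p ^ a ≤ N' := by
    have hD1 : (1 : ℝ) ≤ D' := by exact_mod_cast hD'
    have h3 : p ^ (a + 1) ≤ p ^ a' := pow_le_pow_right₀ hp1 haa
    have h4 : p ^ (a + 1) = p * p ^ a := by ring
    have h5 : (4 * K) * p ^ a ≤ p * p ^ a := by gcongr
    have h6 : 0 < P' := lt_of_lt_of_le (by positivity) hP'1
    rw [hN']
    calc (4 * (K : ℝ)) * p ^ a ≤ P' := by linarith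
      _ = 1 * P' := by ring
      _ ≤ D' * P' := by gcongr
  have h7 : (r : ℝ) < N := by exact_mod_cast hbig
  linarith

/-- Two numbers with the same number of block primes. -/
lemma caseB (r K a N N' D D' : ℕ) (ρ p P P' : ℝ) (hK : 1 ≤ K) (hρ1 : 1 ≤ ρ)
    (hρ : ρ ^ r ≤ 1 + 1 / (2 * K)) (hp : 4 * K ≤ p) (ha : a ≤ r)
    (hDK : D ≤ K) (hD' : D < D') (hP2 : P ≤ (ρ * p) ^ a) (hP'1 : p ^ a ≤ P')
    (hN : (N : ℝ) = D * P) (hN' : (N' : ℝ) = D' * P') (hdiff : (N' : ℝ) ≤ N + r)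
    (hbig : 4 * K * r < N) : False := by
  have hK' : (1 : ℝ) ≤ K := by exact_mod_cast hK
  have hp1 : 1 ≤ p := by linarith
  have hpa : 0 < p ^ a := by positivity
  have hρa : ρ ^ a ≤ 1 + 1 / (2 * K) := (pow_le_pow_right₀ hρ1 ha).trans hρ
  have hρa2 : ρ ^ a ≤ 2 := by
    have : 1 / (2 * (K : ℝ)) ≤ 1 := by
      rw [div_le_one (by positivity)]; linarith
    linarith
  have hDK' : (D : ℝ) ≤ K := by exact_mod_cast hDK
  have hND : (N : ℝ) ≤ D * (ρ ^ a * p ^ a) := by
    rw [hN, ← mul_pow]; gcongr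
  have h1 : (N : ℝ) ≤ 2 * K * p ^ a := by
    calc (N : ℝ) ≤ D * (ρ ^ a * p ^ a) := hND
      _ ≤ K * (2 * p ^ a) := by gcongr
      _ = _ := by ring
  have h2 : (N : ℝ) ≤ D * p ^ a + p ^ a / 2 := by
    have h3 : D * (ρ ^ a * p ^ a) ≤ D * ((1 + 1 / (2 * K)) * p ^ a) := by gcongr
    have h4 : (D : ℝ) * ((1 + 1 / (2 * K)) * p ^ a) = D * p ^ a + (D / K) * (p ^ a / 2) := by
      field_simp
    have h5 : (D : ℝ) / K ≤ 1 := by rw [div_le_one (by positivity)]; exact hDK'
    have h6 : (D : ℝ) / K * (p ^ a / 2) ≤ 1 * (p ^ a / 2) := by gcongr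
    linarith
  have h3 : (D + 1 : ℝ) * p ^ a ≤ N' := by
    have hD1 : (D + 1 : ℝ) ≤ D' := by exact_mod_cast hD'
    rw [hN']
    calc (D + 1 : ℝ) * p ^ a ≤ D' * p ^ a := by gcongr
      _ ≤ D' * P' := by gcongr
  have h7 : (4 * K * r : ℝ) < N := by exact_mod_cast hbig
  have h8 : (2 * (K : ℝ)) * (2 * r) < (2 * K) * p ^ a := by nlinarith
  have h9 : (2 * r : ℝ) < p ^ a := lt_of_mul_lt_mul_left h8 (by positivity)
  linarith


lemma choose_mono_half (n a k : ℕ) (h1 : a ≤ k) (h2 : 2 * k ≤ n) :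
    n.choose a ≤ n.choose k := by
  induction k, h1 using Nat.le_induction with
  | base => exact le_rfl
  | succ k hk ih =>
    exact (ih (by omega)).trans (Nat.choose_le_succ_of_lt_half_left (by omega))

lemma le_choose (n k : ℕ) (h1 : 1 ≤ k) (h2 : k + 1 ≤ n) : n ≤ n.choose k := by
  rcases le_or_gt (2 * k) n with h | h
  · have := choose_mono_half n 1 k h1 h
    rwa [Nat.choose_one_right] at this
  · have := choose_mono_half n 1 (n - k) (by omega) (by omega)
    rwa [Nat.choose_one_right, Nat.choose_symm (by omega)] at this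

lemma k_le (n k r : ℕ) (hk : 2 * k ≤ n) (hn : 2 ^ (r + 1) * (r + 1).factorial < n)
    (hC : n.choose k ≤ n ^ r) : k ≤ r := by
  by_contra hlt
  push Not at hlt
  have h1 : n.choose (r + 1) ≤ n.choose k := choose_mono_half n (r + 1) k hlt hk
  have h2 : (n + 1 - (r + 1)) ^ (r + 1) ≤ n.descFactorial (r + 1) :=
    Nat.pow_sub_le_descFactorial n (r + 1)
  rw [Nat.descFactorial_eq_factorial_mul_choose] at h2
  have h3 : n ≤ 2 * (n + 1 - (r + 1)) := by omega
  have h4 : n ^ (r + 1) ≤ (2 * (n + 1 - (r + 1))) ^ (r + 1) := Nat.pow_le_pow_left h3 _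
  have h5 : n ^ (r + 1) ≤ 2 ^ (r + 1) * ((r + 1).factorial * n ^ r) := by
    calc n ^ (r + 1) ≤ (2 * (n + 1 - (r + 1))) ^ (r + 1) := h4
      _ = 2 ^ (r + 1) * (n + 1 - (r + 1)) ^ (r + 1) := by rw [mul_pow]
      _ ≤ 2 ^ (r + 1) * ((r + 1).factorial * n.choose (r + 1)) := Nat.mul_le_mul_left _ h2
      _ ≤ 2 ^ (r + 1) * ((r + 1).factorial * n ^ r) :=
        Nat.mul_le_mul_left _ (Nat.mul_le_mul_left _ (h1.trans hC))
  have h6 : n * n ^ r ≤ (2 ^ (r + 1) * (r + 1).factorial) * n ^ r := by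
    calc n * n ^ r = n ^ (r + 1) := by ring
      _ ≤ _ := h5
      _ = _ := by ring
  have h7 : 0 < n ^ r := Nat.pow_pos (by omega)
  have h8 := Nat.le_of_mul_le_mul_right h6 h7
  omega

theorem core (r : ℕ) (ρ : ℝ) (hρ1 : 1 ≤ ρ) (hρ : ρ ^ r ≤ 1 + 1 / (2 * (r.factorial : ℝ)))
    (n k : ℕ) (s : Finset ℕ) (x : ℝ) (hk : 2 ≤ k) (hkn : 2 * k ≤ n)
    (hn1 : 2 ^ (r + 1) * (r + 1).factorial < n) (hn2 : 4 * r.factorial * r + r < n)
    (hx : 4 * (r.factorial : ℝ) ≤ x)
    (hs : ∀ q ∈ s, q.Prime) (hsx : ∀ q ∈ s, x ≤ (q : ℝ) ∧ (q : ℝ) ≤ ρ * x) (hcard : s.card = r)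
    (hC : n.choose k = ∏ q ∈ s, q) : False := by
  have hqn : ∀ q ∈ s, q ≤ n := by
    intro q hq
    have h1 : q ∣ n.choose k := by rw [hC]; exact Finset.dvd_prod_of_mem _ hq
    have h2 : q ∣ n.factorial := by
      rw [← Nat.choose_mul_factorial_mul_factorial (show k ≤ n by omega), mul_assoc]
      exact Dvd.dvd.mul_right h1 _
    exact (Nat.Prime.dvd_factorial (hs q hq)).1 h2
  have hle : n.choose k ≤ n ^ r := by
    rw [hC, ← hcard]
    exact Finset.prod_le_pow_card s _ n hqn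
  have hkr : k ≤ r := k_le n k r hkn hn1 hle
  have hK1 : 1 ≤ r.factorial := Nat.factorial_pos r
  have hrK : r ≤ r.factorial := Nat.self_le_factorial r
  have hbig : ∀ q ∈ s, k < q := by
    intro q hq
    have h1 : (4 * r.factorial : ℝ) ≤ q := hx.trans (hsx q hq).1
    have h2 : 4 * r.factorial ≤ q := by exact_mod_cast h1
    omega
  obtain ⟨D, A, hDP, hAs, hprod⟩ := decomp n k (by omega) s hs hbig hC
  obtain ⟨q0, hq0, hd1, hd2⟩ := exists_prime_half k hk
  have hd3 : q0 ∣ ∏ i ∈ range k, D i := by rw [hprod]; exact hd1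
  obtain ⟨i, hi, hqi⟩ := (hq0.prime.dvd_finsetProd_iff _).1 hd3
  have hik : i < k := Finset.mem_range.1 hi
  obtain ⟨j, hjk, hji⟩ : ∃ j, j < k ∧ j ≠ i := by
    rcases Nat.eq_zero_or_pos i with h | h
    · exact ⟨1, by omega, by omega⟩
    · exact ⟨0, by omega, by omega⟩
  have hqj : ¬ q0 ∣ D j := by
    intro hqj
    apply hd2
    rw [← hprod, ← Finset.mul_prod_erase (range k) D hi, pow_two]
    apply mul_dvd_mul hqi
    exact hqj.trans (Finset.dvd_prod_of_mem D (Finset.mem_erase.2 ⟨hji, Finset.mem_range.2 hjk⟩))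
  have hne : D i ≠ D j := by
    intro h; rw [h] at hqi; exact hqj hqi
  have hDK : ∀ i < k, D i ≤ r.factorial := by
    intro i hi
    have h1 : D i ∣ k.factorial := by
      rw [← hprod]; exact Finset.dvd_prod_of_mem D (Finset.mem_range.2 hi)
    exact (Nat.le_of_dvd (Nat.factorial_pos k) h1).trans (Nat.factorial_le hkr)
  have hD1 : ∀ i < k, 1 ≤ D i := by
    intro i hi
    have h1 := hDP i hi
    rcases Nat.eq_zero_or_pos (D i) with h | h
    · rw [h, zero_mul] at h1; omega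
    · exact h
  have hcardA : ∀ i, (A i).card ≤ r := by
    intro i; rw [← hcard]; exact Finset.card_le_card (hAs i)
  have hx0 : 0 ≤ x := by
    have : (0 : ℝ) ≤ 4 * (r.factorial : ℝ) := by positivity
    linarith
  have hP1 : ∀ i, x ^ (A i).card ≤ ((∏ q ∈ A i, q : ℕ) : ℝ) := by
    intro i
    push_cast
    rw [← Finset.prod_const]
    exact Finset.prod_le_prod (fun _ _ => hx0) (fun q hq => (hsx q (hAs i hq)).1)
  have hP2 : ∀ i, ((∏ q ∈ A i, q : ℕ) : ℝ) ≤ (ρ * x) ^ (A i).card := by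
    intro i
    push_cast
    rw [← Finset.prod_const]
    exact Finset.prod_le_prod (fun q _ => Nat.cast_nonneg q) (fun q hq => (hsx q (hAs i hq)).2)
  have hN : ∀ i < k, ((n - i : ℕ) : ℝ) = (D i : ℝ) * ((∏ q ∈ A i, q : ℕ) : ℝ) := by
    intro i hi
    rw [hDP i hi]; push_cast; ring
  have hdiff : ∀ i < k, ∀ j < k, ((n - j : ℕ) : ℝ) ≤ ((n - i : ℕ) : ℝ) + r := by
    intro i hi j hj
    have : n - j ≤ (n - i) + r := by omega
    exact_mod_cast this
  have hB : ∀ i < k, 4 * r.factorial * r < n - i := by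
    intro i hi; omega
  have hA' : ∀ i < k, r < n - i := by
    intro i hi
    have h1 := hB i hi
    have h2 : r ≤ 4 * r.factorial * r := by nlinarith
    omega
  rcases lt_trichotomy (A i).card (A j).card with h | h | h
  · exact caseA r r.factorial _ _ (n - i) (n - j) (D i) (D j) ρ x _ _ hK1 hρ1 hρ hx (hcardA i) h
      (hDK i hik) (hD1 j hjk) (hP2 i) (hP1 j) (hN i hik) (hN j hjk) (hdiff i hik j hjk) (hA' i hik)
  · rcases lt_or_gt_of_ne hne with h' | h'
    · refine caseB r r.factorial (A i).card (n - i) (n - j) (D i) (D j) ρ x _ _ hK1 hρ1 hρ hx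
        (hcardA i) (hDK i hik) h' (hP2 i) ?_ (hN i hik) (hN j hjk) (hdiff i hik j hjk) (hB i hik)
      rw [h]; exact hP1 j
    · refine caseB r r.factorial (A j).card (n - j) (n - i) (D j) (D i) ρ x _ _ hK1 hρ1 hρ hx
        (hcardA j) (hDK j hjk) h' (hP2 j) ?_ (hN j hjk) (hN i hik) (hdiff j hjk i hik) (hB j hjk)
      rw [← h]; exact hP1 i
  · exact caseA r r.factorial _ _ (n - j) (n - i) (D j) (D i) ρ x _ _ hK1 hρ1 hρ hx (hcardA j) h
      (hDK j hjk) (hD1 i hik) (hP2 j) (hP1 i) (hN j hjk) (hN i hik) (hdiff j hjk i hik) (hA' j hjk)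

/-- Primes in a short multiplicative interval. -/
theorem near_finite (r : ℕ) : ∃ ρ : ℝ, 1 < ρ ∧ Set.Finite {y : ℕ × ℕ | 2 ≤ y.2 ∧ y.2 + 2 ≤ y.1 ∧
    ∃ s : Finset ℕ, ∃ x : ℝ, s.card = r ∧ (∀ q ∈ s, q.Prime ∧ x ≤ (q : ℝ) ∧ (q : ℝ) ≤ ρ * x) ∧
      Nat.choose y.1 y.2 = ∏ q ∈ s, q} := by
  have hK1 : 1 ≤ r.factorial := Nat.factorial_pos r
  have hK1' : (1 : ℝ) ≤ r.factorial := by exact_mod_cast hK1
  set c : ℝ := 1 + 1 / (2 * (r.factorial : ℝ)) with hc
  have hc1 : 1 < c := by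
    have : 0 < 1 / (2 * (r.factorial : ℝ)) := by positivity
    linarith
  have hc2 : c ≤ 2 := by
    have : 1 / (2 * (r.factorial : ℝ)) ≤ 1 := by
      rw [div_le_one (by positivity)]; linarith
    linarith
  set ρ : ℝ := c ^ ((((r + 1 : ℕ) : ℝ))⁻¹) with hρ
  have hρ1 : 1 < ρ := Real.one_lt_rpow hc1 (by positivity)
  have hρpow : ρ ^ (r + 1) = c := by
    rw [hρ]; exact Real.rpow_inv_natCast_pow (by linarith) (by omega)
  have hρr : ρ ^ r ≤ c := by
    rw [← hρpow]; exact pow_le_pow_right₀ hρ1.le (by omega)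
  have hρ2 : ρ ≤ 2 := by
    calc ρ = ρ ^ 1 := (pow_one ρ).symm
      _ ≤ ρ ^ (r + 1) := pow_le_pow_right₀ hρ1.le (by omega)
      _ = c := hρpow
      _ ≤ 2 := hc2
  refine ⟨ρ, hρ1, ?_⟩
  set N0 : ℕ := 2 ^ (r + 1) * (r + 1).factorial + (4 * r.factorial * r + r) +
    (8 * r.factorial) ^ r with hN0
  apply Set.Finite.subset ((Set.finite_Iic N0).prod (Set.finite_Iic N0))
  rintro ⟨n, k⟩ ⟨hk, hkn, s, x, hcard, hs, hC⟩
  simp only at hk hkn hC
  have key : n ≤ N0 := by
    by_contra hgt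
    push Not at hgt
    have hx : 4 * (r.factorial : ℝ) ≤ x := by
      by_contra hlt
      push Not at hlt
      have h1 : ∀ q ∈ s, q ≤ 8 * r.factorial := by
        intro q hq
        have h2 : (q : ℝ) ≤ ρ * x := (hs q hq).2.2
        have h3 : ρ * x ≤ ρ * (4 * r.factorial) := by
          apply mul_le_mul_of_nonneg_left hlt.le; linarith
        have h4 : ρ * (4 * (r.factorial : ℝ)) ≤ 2 * (4 * r.factorial) := by
          apply mul_le_mul_of_nonneg_right hρ2; positivity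
        have h5 : (q : ℝ) ≤ ((8 * r.factorial : ℕ) : ℝ) := by push_cast; linarith
        exact_mod_cast h5
      have h6 : n.choose k ≤ (8 * r.factorial) ^ r := by
        rw [hC, ← hcard]
        simpa only [hcard] using Finset.prod_le_pow_card s _ (8 * r.factorial) h1
      have h7 := le_choose n k (by omega) (by omega)
      omega
    rcases le_or_gt (2 * k) n with h | h
    · exact core r ρ hρ1.le hρr n k s x hk h (by omega) (by omega) hx (fun q hq => (hs q hq).1)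
        (fun q hq => (hs q hq).2) hcard hC
    · exact core r ρ hρ1.le hρr n (n - k) s x (by omega) (by omega) (by omega) (by omega) hx
        (fun q hq => (hs q hq).1) (fun q hq => (hs q hq).2) hcard
        (by rw [Nat.choose_symm (by omega)]; exact hC)
  refine ⟨key, ?_⟩
  simp only [Set.mem_Iic]
  omega

/-- Consecutive primes. -/
theorem consecutive_finite (r : ℕ) : Set.Finite {y : ℕ × ℕ | 2 ≤ y.2 ∧ y.2 + 2 ≤ y.1 ∧
    ∃ a b : ℕ, ((Finset.Icc a b).filter Nat.Prime).card = r ∧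
      Nat.choose y.1 y.2 = ∏ p ∈ (Finset.Icc a b).filter Nat.Prime, p} := by
  obtain ⟨ρ, hρ1, hfin⟩ := near_finite r
  set l : ℝ := ρ ^ ((((r + 1 : ℕ) : ℝ))⁻¹) with hl
  have hl1 : 1 < l := Real.one_lt_rpow hρ1 (by positivity)
  have hlpow : l ^ (r + 1) = ρ := by
    rw [hl]; exact Real.rpow_inv_natCast_pow (by linarith) (by omega)
  obtain ⟨X, hX⟩ := Filter.eventually_atTop.1
    (Pool.Agent.Helper213.Sidon.prime_between (l - 1) (by linarith))
  -- r + 1 primes above X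
  have hinf : Set.Infinite {q : ℕ | q.Prime ∧ X < (q : ℝ)} := by
    apply Set.infinite_of_not_bddAbove
    rintro ⟨B, hB⟩
    obtain ⟨q, hq, hqp⟩ := Nat.exists_infinite_primes (max (B + 1) (⌈X⌉₊ + 1))
    have h1 : B + 1 ≤ q := (le_max_left _ _).trans hq
    have h2 : ⌈X⌉₊ + 1 ≤ q := (le_max_right _ _).trans hq
    have h3 : X < q := by
      have h4 : X ≤ (⌈X⌉₊ : ℝ) := Nat.le_ceil X
      have h5 : ((⌈X⌉₊ + 1 : ℕ) : ℝ) ≤ q := by exact_mod_cast h2
      push_cast at h5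
      linarith
    have h6 := hB ⟨hqp, h3⟩
    omega
  obtain ⟨T, hTs, hTc⟩ := hinf.exists_subset_card_eq (r + 1)
  set M : ℕ := T.sup id with hM
  apply Set.Finite.subset (hfin.union ((Set.finite_Iic (M ^ r)).prod (Set.finite_Iic (M ^ r))))
  rintro ⟨n, k⟩ ⟨hk, hkn, a, b, hcard, hC⟩
  simp only at hk hkn hC
  set s := (Finset.Icc a b).filter Nat.Prime with hs
  have hsp : ∀ q ∈ s, q.Prime := fun q hq => (Finset.mem_filter.1 hq).2
  have hsab : ∀ q ∈ s, a ≤ q ∧ q ≤ b := fun q hq => Finset.mem_Icc.1 (Finset.mem_filter.1 hq).1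
  by_cases hall : ∀ q ∈ s, X < (q : ℝ)
  · left
    rcases s.eq_empty_or_nonempty with hse | hsn
    · exfalso
      have h7 := le_choose n k (by omega) (by omega)
      rw [hC, hse, Finset.prod_empty] at h7
      omega
    · set p := s.min' hsn with hp
      have hps : p ∈ s := Finset.min'_mem _ _
      refine ⟨hk, hkn, s, (p : ℝ), hcard, ?_, hC⟩
      intro q hq
      have hpq : p ≤ q := Finset.min'_le _ _ hq
      refine ⟨hsp q hq, by exact_mod_cast hpq, ?_⟩
      by_contra hgt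
      push Not at hgt
      have hp0 : (0 : ℝ) < p := by exact_mod_cast (hsp p hps).pos
      have hlt : ∀ t : ℕ, (p : ℝ) ≤ l ^ t * p := by
        intro t
        have : 1 ≤ l ^ t := one_le_pow₀ hl1.le
        nlinarith
      have hex : ∀ t : ℕ, ∃ f : ℕ, f.Prime ∧ l ^ t * p < (f : ℝ) ∧ (f : ℝ) ≤ l ^ (t + 1) * p := by
        intro t
        obtain ⟨f, hf1, hf2, hf3⟩ := hX (l ^ t * p) ((hall p hps).le.trans (hlt t))
        refine ⟨f, hf1, hf2, ?_⟩
        have : (1 + (l - 1)) * (l ^ t * p) = l ^ (t + 1) * p := by ring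
        linarith
      choose f hf1 hf2 hf3 using hex
      have hmono : StrictMono f := by
        apply strictMono_nat_of_lt_succ
        intro t
        have : (f t : ℝ) < f (t + 1) := (hf3 t).trans_lt (hf2 (t + 1))
        exact_mod_cast this
      have hsub : (Finset.range (r + 1)).image f ⊆ s := by
        intro y hy
        obtain ⟨t, ht, rfl⟩ := Finset.mem_image.1 hy
        have ht' : t < r + 1 := Finset.mem_range.1 ht
        have h1 : (p : ℝ) < f t := (hlt t).trans_lt (hf2 t)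
        have h2 : p < f t := by exact_mod_cast h1
        have h3 : (f t : ℝ) < q := by
          have h4 : l ^ (t + 1) ≤ l ^ (r + 1) := pow_le_pow_right₀ hl1.le (by omega)
          have h5 : l ^ (t + 1) * p ≤ l ^ (r + 1) * p := by gcongr
          rw [hlpow] at h5
          linarith [hf3 t]
        have h6 : f t < q := by exact_mod_cast h3
        have h7 := hsab p hps
        have h8 := hsab q hq
        exact Finset.mem_filter.2 ⟨Finset.mem_Icc.2 ⟨by omega, by omega⟩, hf1 t⟩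
      have hc := Finset.card_le_card hsub
      rw [Finset.card_image_of_injective _ hmono.injective, Finset.card_range, hcard] at hc
      omega
  · right
    push Not at hall
    obtain ⟨q, hq, hqX⟩ := hall
    have hle : ∀ w ∈ s, w ≤ M := by
      intro w hw
      by_contra hgt
      push Not at hgt
      have hsub : T ⊆ s := by
        intro t ht
        have h1 := hTs ht
        have h2 : t ≤ M := Finset.le_sup (f := id) ht
        have h3 : (q : ℝ) < t := hqX.trans_lt h1.2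
        have h4 : q < t := by exact_mod_cast h3
        have h5 := hsab q hq
        have h6 := hsab w hw
        exact Finset.mem_filter.2 ⟨Finset.mem_Icc.2 ⟨by omega, by omega⟩, h1.1⟩
      have hc := Finset.card_le_card hsub
      omega
    have h6 : n.choose k ≤ M ^ r := by
      rw [hC]
      simpa only [hcard] using Finset.prod_le_pow_card s _ M hle
    have h7 := le_choose n k (by omega) (by omega)
    refine ⟨h7.trans h6, ?_⟩
    simp only [Set.mem_Iic]
    omega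

end Pool.Agent.helper885_bc
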