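import Mathlib
import Pool.Agent.helper885_bc.Base

set_option autoImplicit false

namespace Pool.Agent.helper885_bc

open Finset

lemma k_le' (n k r : ℕ) (hk : 2 * k ≤ n) (hn : 36 * r ^ 2 < n) (hr : 1 ≤ r)
    (hC : n.choose k ≤ n ^ r) : k ≤ 2 * r := by
  by_contra hlt
  push Not at hlt
  set m : ℕ := 2 * r + 1 with hm
  have h1 : n.choose m ≤ n.choose k := choose_mono_half n m k hlt hk
  have h2 : (n + 1 - m) ^ m ≤ n.descFactorial m := Nat.pow_sub_le_descFactorial n m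
  rw [Nat.descFactorial_eq_factorial_mul_choose] at h2
  have h3 : n ≤ 2 * (n + 1 - m) := by omega
  have h4 : n ^ m ≤ (2 * (n + 1 - m)) ^ m := Nat.pow_le_pow_left h3 _
  have h5 : n ^ m ≤ 2 ^ m * (m ^ m * n ^ r) := by
    calc n ^ m ≤ (2 * (n + 1 - m)) ^ m := h4
      _ = 2 ^ m * (n + 1 - m) ^ m := by rw [mul_pow]
      _ ≤ 2 ^ m * (m.factorial * n.choose m) := Nat.mul_le_mul_left _ h2
      _ ≤ 2 ^ m * (m ^ m * n ^ r) :=
        Nat.mul_le_mul_left _ (Nat.mul_le_mul (Nat.factorial_le_pow m) (h1.trans hC))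
  have hn0 : 0 < n := by omega
  have h6 : n ^ (r + 1) * n ^ r ≤ (2 * m) ^ m * n ^ r := by
    calc n ^ (r + 1) * n ^ r = n ^ m := by rw [← pow_add]; congr 1; omega
      _ ≤ _ := h5
      _ = _ := by rw [mul_pow]; ring
  have h7 : 0 < n ^ r := Nat.pow_pos hn0
  have h8 := Nat.le_of_mul_le_mul_right h6 h7
  have h9 : (2 * m) ^ m ≤ ((2 * m) ^ 2) ^ (r + 1) := by
    rw [← pow_mul]
    exact Nat.pow_le_pow_right (by omega) (by omega)
  have h10 : n ≤ (2 * m) ^ 2 := (Nat.pow_le_pow_iff_left (by omega)).1 (h8.trans h9)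
  have h11 : (2 * m) ^ 2 ≤ (6 * r) ^ 2 := Nat.pow_le_pow_left (by omega) 2
  have h12 : (6 * r) ^ 2 = 36 * r ^ 2 := by ring
  omega

lemma prod_pairs (D : ℕ → ℕ) (m : ℕ) :
    ∏ i ∈ range (2 * m), D i = ∏ t ∈ range m, (D (2 * t) * D (2 * t + 1)) := by
  induction m with
  | zero => simp
  | succ m ih =>
    rw [show 2 * (m + 1) = 2 * m + 1 + 1 by ring, prod_range_succ, prod_range_succ, ih,
      prod_range_succ, mul_assoc]

/-- No binomial coefficient is a product of `r` primes of an interval `[x, ρ x]` when `ρ ^ r` is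
close to `1` and `x` is large in terms of `r`, polynomially. -/
theorem core' (r : ℕ) (hr : 1 ≤ r) (ρ : ℝ) (hρ1 : 1 ≤ ρ)
    (hρ : ρ ^ r ≤ 1 + 1 / (2 * ((8 * r ^ 3 : ℕ) : ℝ)))
    (n k : ℕ) (s : Finset ℕ) (x : ℝ) (hk : 2 ≤ k) (hkn : 2 * k ≤ n)
    (hx : 100 * (r : ℝ) ^ 4 ≤ x)
    (hs : ∀ q ∈ s, q.Prime) (hsx : ∀ q ∈ s, x ≤ (q : ℝ) ∧ (q : ℝ) ≤ ρ * x) (hcard : s.card = r)
    (hC : n.choose k = ∏ q ∈ s, q) : False := by
  have hqn : ∀ q ∈ s, q ≤ n := by
    intro q hq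
    have h1 : q ∣ n.choose k := by rw [hC]; exact Finset.dvd_prod_of_mem _ hq
    have h2 : q ∣ n.factorial := by
      rw [← Nat.choose_mul_factorial_mul_factorial (show k ≤ n by omega), mul_assoc]
      exact Dvd.dvd.mul_right h1 _
    exact (Nat.Prime.dvd_factorial (hs q hq)).1 h2
  have hq100 : ∀ q ∈ s, 100 * r ^ 4 ≤ q := by
    intro q hq
    have h1 := hx.trans (hsx q hq).1
    exact_mod_cast h1
  have hsne : s.Nonempty := by
    rw [← Finset.card_pos]; omega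
  have hn100 : 100 * r ^ 4 ≤ n := by
    obtain ⟨q, hq⟩ := hsne
    exact (hq100 q hq).trans (hqn q hq)
  have hr2 : r ≤ r ^ 2 := Nat.le_self_pow (by omega) r
  have hr24 : r ^ 2 ≤ r ^ 4 := Nat.pow_le_pow_right hr (by omega)
  have hr4 : 1 ≤ r ^ 4 := Nat.one_le_pow _ _ hr
  have hle : n.choose k ≤ n ^ r := by
    rw [hC, ← hcard]
    exact Finset.prod_le_pow_card s _ n hqn
  have hkr : k ≤ 2 * r := k_le' n k r hkn (by omega) hr hle
  have hbig : ∀ q ∈ s, k < q := by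
    intro q hq
    have h2 := hq100 q hq
    omega
  obtain ⟨D, A, hDP, hAs, hprod⟩ := decomp n k (by omega) s hs hbig hC
  set K : ℕ := 8 * r ^ 3 with hK
  have hr3 : 1 ≤ r ^ 3 := Nat.one_le_pow _ _ hr
  have hK1 : 1 ≤ K := by omega
  have hD1 : ∀ i < k, 1 ≤ D i := by
    intro i hi
    have h1 := hDP i hi
    rcases Nat.eq_zero_or_pos (D i) with h | h
    · rw [h, zero_mul] at h1; omega
    · exact h
  have hcardA : ∀ i, (A i).card ≤ r := by
    intro i; rw [← hcard]; exact Finset.card_le_card (hAs i)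
  have hx0 : 0 ≤ x := by
    have : (0 : ℝ) ≤ 100 * (r : ℝ) ^ 4 := by positivity
    linarith
  have hxK : 4 * (K : ℝ) ≤ x := by
    have h1 : 4 * K ≤ 100 * r ^ 4 := by
      have : r ^ 3 ≤ r ^ 4 := Nat.pow_le_pow_right hr (by omega)
      omega
    have h2 : (4 * (K : ℝ)) ≤ 100 * (r : ℝ) ^ 4 := by exact_mod_cast h1
    linarith
  have hP1 : ∀ i, x ^ (A i).card ≤ ((∏ q ∈ A i, q : ℕ) : ℝ) := by
    intro i
    push_cast
    rw [← Finset.prod_const]
    exact Finset.prod_le_prod (fun _ _ => hx0) (fun q hq => (hsx q (hAs i hq)).1)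
  have hP2 : ∀ i, ((∏ q ∈ A i, q : ℕ) : ℝ) ≤ (ρ * x) ^ (A i).card := by
    intro i
    push_cast
    rw [← Finset.prod_const]
    exact Finset.prod_le_prod (fun q _ => Nat.cast_nonneg q) (fun q hq => (hsx q (hAs i hq)).2)
  have hN : ∀ i < k, ((n - i : ℕ) : ℝ) = (D i : ℝ) * ((∏ q ∈ A i, q : ℕ) : ℝ) := by
    intro i hi
    rw [hDP i hi]; push_cast; ring
  have hodd : ∀ i, (∏ q ∈ A i, q) % 2 = 1 := by
    intro i
    rw [← Nat.odd_iff]
    apply Finset.prod_induction _ Odd (fun a b ha hb => ha.mul hb) odd_one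
    intro q hq
    have h1 := hs q (hAs i hq)
    have h2 := hq100 q (hAs i hq)
    exact h1.odd_of_ne_two (by omega)
  have hB : ∀ i < k, 4 * K * r < n - i := by
    intro i hi
    have h1 : 4 * K * r = 32 * r ^ 4 := by rw [hK]; ring
    omega
  have hA' : ∀ i < k, r < n - i := by
    intro i hi
    omega
  -- the pair argument
  have hpair : ∀ i < k, ∀ j < k, ((n - j : ℕ) : ℝ) ≤ ((n - i : ℕ) : ℝ) + r →
      ((n - i : ℕ) : ℝ) ≤ ((n - j : ℕ) : ℝ) + r → D i ≤ K → D j ≤ K → D i ≠ D j → False := by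
    intro i hik j hjk hd1 hd2 hDi hDj hne
    rcases lt_trichotomy (A i).card (A j).card with h | h | h
    · exact caseA r K _ _ (n - i) (n - j) (D i) (D j) ρ x _ _ hK1 hρ1 hρ hxK (hcardA i) h
        hDi (hD1 j hjk) (hP2 i) (hP1 j) (hN i hik) (hN j hjk) hd1 (hA' i hik)
    · rcases lt_or_gt_of_ne hne with h' | h'
      · refine caseB r K (A i).card (n - i) (n - j) (D i) (D j) ρ x _ _ hK1 hρ1 hρ hxK
          (hcardA i) hDi h' (hP2 i) ?_ (hN i hik) (hN j hjk) hd1 (hB i hik)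
        rw [h]; exact hP1 j
      · refine caseB r K (A j).card (n - j) (n - i) (D j) (D i) ρ x _ _ hK1 hρ1 hρ hxK
          (hcardA j) hDj h' (hP2 j) ?_ (hN j hjk) (hN i hik) hd2 (hB j hjk)
        rw [← h]; exact hP1 i
    · exact caseA r K _ _ (n - j) (n - i) (D j) (D i) ρ x _ _ hK1 hρ1 hρ hxK (hcardA j) h
        hDj (hD1 i hik) (hP2 j) (hP1 i) (hN j hjk) (hN i hik) hd2 (hA' j hjk)
  have hpairs : ∀ t ∈ range (k / 2), K + 1 ≤ D (2 * t) * D (2 * t + 1) := by
    intro t ht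
    have ht' : t < k / 2 := Finset.mem_range.1 ht
    have hi : 2 * t < k := by omega
    have hj : 2 * t + 1 < k := by omega
    by_contra hlt
    push Not at hlt
    have e1 := hD1 _ hi
    have e2 := hD1 _ hj
    have hDi : D (2 * t) ≤ K := by nlinarith
    have hDj : D (2 * t + 1) ≤ K := by nlinarith
    have hne : D (2 * t) ≠ D (2 * t + 1) := by
      intro heq
      have g1 := hDP _ hi
      have g2 := hDP _ hj
      have g3 : (n - 2 * t) % 2 = D (2 * t) % 2 := by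
        rw [g1, Nat.mul_mod, hodd]; simp
      have g4 : (n - (2 * t + 1)) % 2 = D (2 * t + 1) % 2 := by
        rw [g2, Nat.mul_mod, hodd]; simp
      rw [heq] at g3
      omega
    apply hpair _ hi _ hj _ _ hDi hDj hne
    · have : n - (2 * t + 1) ≤ (n - 2 * t) + r := by omega
      exact_mod_cast this
    · have : n - 2 * t ≤ (n - (2 * t + 1)) + r := by omega
      exact_mod_cast this
  have h1 : (K + 1) ^ (k / 2) ≤ ∏ t ∈ range (k / 2), (D (2 * t) * D (2 * t + 1)) := by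
    have := Finset.pow_card_le_prod (range (k / 2)) (fun t => D (2 * t) * D (2 * t + 1)) (K + 1)
      hpairs
    rwa [Finset.card_range] at this
  rw [← prod_pairs] at h1
  have h2 : ∏ i ∈ range (2 * (k / 2)), D i ≤ ∏ i ∈ range k, D i := by
    apply Finset.prod_le_prod_of_subset_of_one_le'
    · intro i hi
      have := Finset.mem_range.1 hi
      exact Finset.mem_range.2 (by omega)
    · intro i hi _
      exact hD1 i (Finset.mem_range.1 hi)
  rw [hprod] at h2
  have h3 : k.factorial ≤ (k ^ 3) ^ (k / 2) := by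
    calc k.factorial ≤ k ^ k := Nat.factorial_le_pow k
      _ ≤ k ^ (3 * (k / 2)) := Nat.pow_le_pow_right (by omega) (by omega)
      _ = _ := by rw [pow_mul]
  have h4 : k ^ 3 ≤ K := by
    calc k ^ 3 ≤ (2 * r) ^ 3 := Nat.pow_le_pow_left hkr 3
      _ = K := by rw [hK]; ring
  have h5 : (k ^ 3) ^ (k / 2) ≤ K ^ (k / 2) := Nat.pow_le_pow_left h4 _
  have h6 : K ^ (k / 2) < (K + 1) ^ (k / 2) := Nat.pow_lt_pow_left (by omega) (by omega)
  omega

end Pool.Agent.helper885_bc
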