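import Mathlib
import Pool.Agent.helper885_bc.Core
import Pool.Agent.H442R2.EHI.PntErr

set_option autoImplicit false

namespace Pool.Agent.helper885_bc

open Finset Filter

lemma theta_sub_le (p y : ℕ) (hpy : p ≤ y) :
    Chebyshev.theta (y : ℝ) - Chebyshev.theta (p : ℝ) ≤
      (((Ioc p y).filter Nat.Prime).card : ℝ) * Real.log y := by
  have h : Chebyshev.theta (y : ℝ) = Chebyshev.theta (p : ℝ) +
      ∑ q ∈ (Ioc p y).filter Nat.Prime, Real.log q := by
    unfold Chebyshev.theta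
    simp only [Nat.floor_natCast, Finset.sum_filter]
    rw [← Finset.sum_Ioc_consecutive _ (Nat.zero_le p) hpy]
  rw [h]
  have h2 : ∑ q ∈ (Ioc p y).filter Nat.Prime, Real.log q ≤
      ∑ q ∈ (Ioc p y).filter Nat.Prime, Real.log y := by
    apply Finset.sum_le_sum
    intro q hq
    have h3 := Finset.mem_Ioc.1 (Finset.mem_filter.1 hq).1
    apply Real.log_le_log
    · exact_mod_cast (by omega : 0 < q)
    · exact_mod_cast h3.2
  rw [Finset.sum_const, nsmul_eq_mul] at h2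
  linarith

lemma pow_bound (δ : ℝ) (hδ : 0 ≤ δ) (r : ℕ) (h : 2 * r * δ ≤ 1) :
    ∀ m ≤ r, (1 + δ) ^ m ≤ 1 + 2 * m * δ := by
  intro m
  induction m with
  | zero => intro _; simp
  | succ m ih =>
    intro hm
    have h1 := ih (by omega)
    have h2 : (m : ℝ) ≤ r := by exact_mod_cast (by omega : m ≤ r)
    have h3 : 2 * m * δ ≤ 1 := by
      calc 2 * m * δ ≤ 2 * r * δ := by gcongr
        _ ≤ 1 := h
    calc (1 + δ) ^ (m + 1) = (1 + δ) ^ m * (1 + δ) := by ring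
      _ ≤ (1 + 2 * m * δ) * (1 + δ) := by gcongr
      _ = 1 + 2 * m * δ + δ + (2 * m * δ) * δ := by ring
      _ ≤ 1 + 2 * m * δ + δ + 1 * δ := by gcongr
      _ = 1 + 2 * ((m + 1 : ℕ) : ℝ) * δ := by push_cast; ring

lemma aux (L C δ p M y ly : ℝ) (A : ℕ) (hL1 : 1 ≤ L) (hLC : 384 * C ≤ L) (hC : 0 < C)
    (hM : M = L ^ (4 * A)) (hp : 128 * L ^ (5 * A + 1) ≤ p) (hδ0 : 0 < δ)
    (hδM : 1 ≤ 32 * δ * M) (cnt r thy thp : ℝ) (hr : r ≤ L ^ A) 
    (hy1 : y ≤ 2 * p) (hy2 : (1 + δ) * p - 1 < y) (hly1 : L ≤ ly) (hly2 : ly ≤ 2 * L)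
    (h1 : |thy - y| ≤ C * (y / ly ^ (4 * A + 1))) (h2 : |thp - p| ≤ C * (p / L ^ (4 * A + 1)))
    (h3 : thy - thp ≤ cnt * ly) (hcnt : 0 ≤ cnt) (hlt : cnt < r) : False := by
  have hM1 : 1 ≤ M := by rw [hM]; exact one_le_pow₀ hL1
  have hLA : 1 ≤ L ^ (A + 1) := one_le_pow₀ hL1
  have hp0 : 0 < p := by
    have : 0 < 128 * L ^ (5 * A + 1) := by positivity
    linarith
  have hsplit : L ^ (5 * A + 1) = M * L ^ (A + 1) := by rw [hM, ← pow_add]; congr 1; ring
  have hδp : 4 * L ^ (A + 1) ≤ δ * p := by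
    calc 4 * L ^ (A + 1) = 4 * 1 * L ^ (A + 1) := by ring
      _ ≤ 4 * (32 * δ * M) * L ^ (A + 1) := by gcongr
      _ = δ * (128 * (M * L ^ (A + 1))) := by ring
      _ ≤ δ * p := by rw [← hsplit]; gcongr
  have hML : L ^ (4 * A + 1) = M * L := by rw [hM, pow_succ]
  have hden : 0 < M * L := by positivity
  have e0 : 3 * (C * (p / (M * L))) ≤ δ * p / 4 := by
    rw [show 3 * (C * (p / (M * L))) = (3 * C * p) / (M * L) by ring, div_le_iff₀ hden]
    have e1 : 1 * (p * L) ≤ (32 * δ * M) * (p * L) := by gcongr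
    have e2 : (384 * C) * p ≤ L * p := by gcongr
    nlinarith
  have e1 : C * (y / ly ^ (4 * A + 1)) ≤ 2 * (C * (p / (M * L))) := by
    rw [← hML]
    have hyL : y / ly ^ (4 * A + 1) ≤ (2 * p) / L ^ (4 * A + 1) := by
      apply div_le_div₀ (by positivity) hy1 (by positivity)
      exact pow_le_pow_left₀ (by linarith) hly1 _
    calc C * (y / ly ^ (4 * A + 1)) ≤ C * ((2 * p) / L ^ (4 * A + 1)) := by gcongr
      _ = _ := by ring
  rw [hML] at h2
  have h1' := (abs_le.1 h1).1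
  have h2' := (abs_le.1 h2).2
  have e3 : δ * p / 2 ≤ thy - thp := by nlinarith
  have e4 : cnt * ly ≤ cnt * (2 * L) := by gcongr
  have e5 : cnt * (2 * L) < r * (2 * L) := by
    apply mul_lt_mul_of_pos_right hlt; positivity
  have e6 : r * (2 * L) ≤ L ^ A * (2 * L) := by gcongr
  have e7 : L ^ A * (2 * L) = 2 * L ^ (A + 1) := by ring
  linarith

lemma log_lit (A : ℕ) : ∀ᶠ p : ℕ in atTop, 128 * (Real.log p) ^ (5 * A + 1) ≤ p := by
  have h1 := (Real.isLittleO_pow_log_id_atTop (n := 5 * A + 1)).bound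
    (show (0 : ℝ) < 1 / 128 by norm_num)
  have h2 := tendsto_natCast_atTop_atTop.eventually h1
  filter_upwards [h2, eventually_ge_atTop 1] with p hp hp1
  have h3 : (0 : ℝ) ≤ Real.log p := Real.log_natCast_nonneg p
  simp only [Real.norm_eq_abs, id] at hp
  rw [abs_of_nonneg (by positivity), abs_of_nonneg (by positivity)] at hp
  linarith

/-- There are many primes just above a large `p`, in terms of a bound `r ≤ (log p) ^ A`. -/
lemma many_primes (A : ℕ) : ∃ X0 : ℕ, ∀ p : ℕ, X0 ≤ p → ∀ r : ℕ, 1 ≤ r →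
    (r : ℝ) ≤ (Real.log p) ^ A → 100 * (r : ℝ) ^ 4 ≤ p ∧
      r ≤ ((Ioc p ⌊(1 + 1 / (32 * (r : ℝ) ^ 4)) * p⌋₊).filter Nat.Prime).card := by
  obtain ⟨C, hC, hth⟩ := Pool.Agent.H442R2.EHI.PntErrAux.thetaU (4 * A + 1)
  have hlog : ∀ᶠ p : ℕ in atTop, max 1 (384 * C) ≤ Real.log p :=
    (Real.tendsto_log_atTop.comp tendsto_natCast_atTop_atTop).eventually_ge_atTop _
  obtain ⟨X0, hX0⟩ := eventually_atTop.1 ((log_lit A).and (hlog.and (eventually_ge_atTop 2)))
  refine ⟨X0, fun p hp r hr hrA => ?_⟩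
  obtain ⟨h1, h2, h3⟩ := hX0 p hp
  have hp0 : (0 : ℝ) < p := by exact_mod_cast (by omega : 0 < p)
  have hr1 : (1 : ℝ) ≤ r := by exact_mod_cast hr
  set L := Real.log p with hL
  have hL1 : 1 ≤ L := (le_max_left _ _).trans h2
  have hLC : 384 * C ≤ L := (le_max_right _ _).trans h2
  have hr4 : (r : ℝ) ^ 4 ≤ L ^ (4 * A) := by
    calc (r : ℝ) ^ 4 ≤ (L ^ A) ^ 4 := by gcongr
      _ = _ := by rw [← pow_mul, mul_comm A 4]
  have hLm : L ^ (4 * A) ≤ L ^ (5 * A + 1) := pow_le_pow_right₀ hL1 (by omega)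
  have hr41 : (1 : ℝ) ≤ (r : ℝ) ^ 4 := one_le_pow₀ hr1
  refine ⟨by linarith, ?_⟩
  set δ : ℝ := 1 / (32 * (r : ℝ) ^ 4) with hδ
  have hδ0 : 0 < δ := by positivity
  have hδ1 : δ ≤ 1 := by
    rw [hδ, div_le_one (by positivity)]; linarith
  have hδr : 32 * δ * (r : ℝ) ^ 4 = 1 := by
    rw [hδ]; field_simp
  have hδM : 1 ≤ 32 * δ * L ^ (4 * A) := by
    calc (1 : ℝ) = 32 * δ * (r : ℝ) ^ 4 := hδr.symm
      _ ≤ 32 * δ * L ^ (4 * A) := by gcongr
  set y := ⌊(1 + δ) * (p : ℝ)⌋₊ with hy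
  have hy1 : (y : ℝ) ≤ (1 + δ) * p := Nat.floor_le (by positivity)
  have hy2 : (1 + δ) * p - 1 < y := Nat.sub_one_lt_floor _
  have hpy : p ≤ y := Nat.le_floor (by nlinarith)
  have hy2p : (y : ℝ) ≤ 2 * p := by nlinarith
  have hyp : (0 : ℝ) < y := by exact_mod_cast (by omega : 0 < y)
  have hly1 : L ≤ Real.log y := Real.log_le_log hp0 (by exact_mod_cast hpy)
  have hly2 : Real.log y ≤ 2 * L := by
    calc Real.log y ≤ Real.log (2 * p) := Real.log_le_log hyp hy2p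
      _ = Real.log 2 + L := Real.log_mul (by norm_num) hp0.ne'
      _ ≤ 2 * L := by
        have := Real.log_two_lt_d9
        linarith
  by_contra hlt
  push Not at hlt
  exact aux L C δ p (L ^ (4 * A)) y (Real.log y) A hL1 hLC hC rfl h1 hδ0 hδM
    (((Ioc p y).filter Nat.Prime).card : ℝ) r (Chebyshev.theta y) (Chebyshev.theta p) hrA
    hy2p hy2 hly1 hly2 (hth y (by omega)) (hth p h3) (theta_sub_le p y hpy)
    (Nat.cast_nonneg _) (by exact_mod_cast hlt)

/-- Blocks of at most `(log p) ^ A` consecutive primes, `p` the smallest prime of the block. -/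
theorem consecutive_log (A : ℕ) : Set.Finite {y : ℕ × ℕ | 2 ≤ y.2 ∧ y.2 + 2 ≤ y.1 ∧
    ∃ a b : ℕ, (∀ q ∈ (Finset.Icc a b).filter Nat.Prime,
        (((Finset.Icc a b).filter Nat.Prime).card : ℝ) ≤ (Real.log q) ^ A) ∧
      Nat.choose y.1 y.2 = ∏ p ∈ (Finset.Icc a b).filter Nat.Prime, p} := by
  obtain ⟨X0, hX0⟩ := many_primes A
  set R0 : ℕ := ⌈(Real.log X0) ^ A⌉₊ with hR0
  apply Set.Finite.subset ((Set.finite_Iic R0).biUnion (fun r _ => consecutive_finite r))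
  rintro ⟨n, k⟩ ⟨hk, hkn, a, b, hlogs, hC⟩
  simp only at hk hkn hC
  set s := (Finset.Icc a b).filter Nat.Prime with hs
  have hsp : ∀ q ∈ s, q.Prime := fun q hq => (Finset.mem_filter.1 hq).2
  have hsab : ∀ q ∈ s, a ≤ q ∧ q ≤ b := fun q hq => Finset.mem_Icc.1 (Finset.mem_filter.1 hq).1
  have hgoal : s.card ≤ R0 → (n, k) ∈ ⋃ r ∈ Set.Iic R0, {y : ℕ × ℕ | 2 ≤ y.2 ∧ y.2 + 2 ≤ y.1 ∧
      ∃ a b : ℕ, ((Finset.Icc a b).filter Nat.Prime).card = r ∧
        Nat.choose y.1 y.2 = ∏ p ∈ (Finset.Icc a b).filter Nat.Prime, p} := by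
    intro h
    exact Set.mem_biUnion (show s.card ∈ Set.Iic R0 from h) ⟨hk, hkn, a, b, rfl, hC⟩
  rcases s.eq_empty_or_nonempty with hse | hsn
  · apply hgoal
    rw [hse]; simp
  · set p := s.min' hsn with hp
    have hps : p ∈ s := Finset.min'_mem _ _
    have hp2 : 2 ≤ p := (hsp p hps).two_le
    have hp0 : (0 : ℝ) < p := by exact_mod_cast (by omega : 0 < p)
    have hr1 : 1 ≤ s.card := Finset.card_pos.2 hsn
    rcases Nat.lt_or_ge p X0 with hpX | hpX
    · apply hgoal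
      have h1 := hlogs p hps
      have h2 : Real.log p ≤ Real.log X0 := Real.log_le_log hp0 (by exact_mod_cast hpX.le)
      have h3 : (0 : ℝ) ≤ Real.log p := Real.log_natCast_nonneg p
      have h4 : (s.card : ℝ) ≤ (Real.log X0) ^ A := h1.trans (pow_le_pow_left₀ h3 h2 A)
      have h5 : (s.card : ℝ) ≤ (R0 : ℝ) := h4.trans (Nat.le_ceil _)
      exact_mod_cast h5
    · exfalso
      obtain ⟨g1, g2⟩ := hX0 p hpX s.card hr1 (hlogs p hps)
      set r := s.card with hr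
      have hr1' : (1 : ℝ) ≤ r := by exact_mod_cast hr1
      set δ : ℝ := 1 / (32 * (r : ℝ) ^ 4) with hδ
      have hδ0 : 0 < δ := by positivity
      have hδr : 32 * δ * (r : ℝ) ^ 4 = 1 := by
        rw [hδ]; field_simp
      have hsx : ∀ q ∈ s, (p : ℝ) ≤ (q : ℝ) ∧ (q : ℝ) ≤ (1 + δ) * p := by
        intro q hq
        have hpq : p ≤ q := Finset.min'_le _ _ hq
        refine ⟨by exact_mod_cast hpq, ?_⟩
        by_contra hgt
        push Not at hgt
        have hyq : ⌊(1 + δ) * (p : ℝ)⌋₊ < q := (Nat.floor_lt (by positivity)).2 hgt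
        have hsub : (Ioc p ⌊(1 + δ) * (p : ℝ)⌋₊).filter Nat.Prime ⊆ s.erase p := by
          intro w hw
          obtain ⟨hw1, hw2⟩ := Finset.mem_filter.1 hw
          obtain ⟨hw3, hw4⟩ := Finset.mem_Ioc.1 hw1
          have h7 := hsab p hps
          have h8 := hsab q hq
          exact Finset.mem_erase.2 ⟨by omega, Finset.mem_filter.2
            ⟨Finset.mem_Icc.2 ⟨by omega, by omega⟩, hw2⟩⟩
        have hc := Finset.card_le_card hsub
        rw [Finset.card_erase_of_mem hps] at hc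
        omega
      have hρ : (1 + δ) ^ r ≤ 1 + 1 / (2 * ((8 * r ^ 3 : ℕ) : ℝ)) := by
        have hr34 : (r : ℝ) ^ 4 = (r : ℝ) ^ 3 * r := by ring
        have hr3 : (1 : ℝ) ≤ (r : ℝ) ^ 3 := one_le_pow₀ hr1'
        have hrδ : 2 * r * δ = 1 / (16 * (r : ℝ) ^ 3) := by
          rw [eq_div_iff (by positivity)]
          calc 2 * r * δ * (16 * (r : ℝ) ^ 3) = 32 * δ * ((r : ℝ) ^ 3 * r) := by ring
            _ = 1 := by rw [← hr34]; exact hδr
        have h1 : 2 * r * δ ≤ 1 := by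
          rw [hrδ, div_le_one (by positivity)]; linarith
        have h2 := pow_bound δ hδ0.le r h1 r le_rfl
        rw [hrδ] at h2
        have h3 : (2 * ((8 * r ^ 3 : ℕ) : ℝ)) = 16 * (r : ℝ) ^ 3 := by push_cast; ring
        rw [h3]
        exact h2
      rcases le_or_gt (2 * k) n with h | h
      · exact core' r hr1 (1 + δ) (by linarith) hρ n k s p hk h g1 hsp hsx rfl hC
      · exact core' r hr1 (1 + δ) (by linarith) hρ n (n - k) s p (by omega) (by omega) g1 hsp hsx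
          rfl (by rw [Nat.choose_symm (by omega)]; exact hC)

end Pool.Agent.helper885_bc
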