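import Mathlib
import Pool.Agent.helper885_bc.Log

set_option autoImplicit false

namespace Pool.Agent.helper885_bc

open Finset Filter

/-- Exponent manipulation. -/
lemma expo (c : ℝ) (hc0 : 0 ≤ c) (hc : c < 1) (ln lP r : ℝ) (hln : 1 ≤ ln)
    (h1 : ln ≤ r * lP) (h2 : r ≤ ln ^ c) (hlP : 0 ≤ lP) :
    1 ≤ lP ∧ r ≤ lP ^ ⌈c / (1 - c)⌉₊ := by
  have hln0 : 0 < ln := by linarith
  have h3 : ln ^ c * ln ^ (1 - c) ≤ ln ^ c * lP := by
    rw [← Real.rpow_add hln0]
    have : c + (1 - c) = 1 := by ring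
    rw [this, Real.rpow_one]
    exact h1.trans (mul_le_mul_of_nonneg_right h2 hlP)
  have hpos : 0 < ln ^ c := Real.rpow_pos_of_pos hln0 _
  have h4 : ln ^ (1 - c) ≤ lP := le_of_mul_le_mul_left h3 hpos
  have h5 : 1 ≤ ln ^ (1 - c) := Real.one_le_rpow hln (by linarith)
  have h6 : 1 ≤ lP := h5.trans h4
  refine ⟨h6, h2.trans ?_⟩
  have h7 : ln ^ c = (ln ^ (1 - c)) ^ (c / (1 - c)) := by
    rw [← Real.rpow_mul hln0.le]
    congr 1
    field_simp [show (1 - c) ≠ 0 by linarith]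
  rw [h7]
  calc (ln ^ (1 - c)) ^ (c / (1 - c)) ≤ lP ^ (c / (1 - c)) :=
        Real.rpow_le_rpow (by linarith) h4 (div_nonneg hc0 (by linarith))
    _ ≤ lP ^ ((⌈c / (1 - c)⌉₊ : ℕ) : ℝ) := Real.rpow_le_rpow_of_exponent_le h6 (Nat.le_ceil _)
    _ = lP ^ ⌈c / (1 - c)⌉₊ := Real.rpow_natCast _ _

/-- In a long interval `[a, b]` with few primes, the smallest prime is not small. -/
lemma smallest (B : ℕ) : ∃ M0 : ℕ, 2 ≤ M0 ∧ ∀ a b p P : ℕ,
    M0 ^ 2 ≤ P → a ≤ p → P ≤ b → p.Prime →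
    (((Finset.Icc a b).filter Nat.Prime).card : ℝ) ≤ (Real.log P) ^ B →
    (((Finset.Icc a b).filter Nat.Prime).card : ℝ) ≤ (Real.log p) ^ (B + 1) := by
  obtain ⟨X0, hX0⟩ := many_primes (B + 1)
  set M0 : ℕ := max 2 (max X0 ⌈Real.exp (4 ^ B + 2)⌉₊) with hM0
  refine ⟨M0, le_max_left _ _, ?_⟩
  intro a b p P hMP hap hPb hpp hcard
  set m := Nat.sqrt P with hm
  have hmM : M0 ≤ m := by rw [hm]; exact Nat.le_sqrt'.2 hMP
  have hm2 : 2 ≤ m := (le_max_left _ _).trans hmM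
  have hmX : X0 ≤ m := (le_max_left _ _).trans ((le_max_right _ _).trans hmM)
  have hme : ⌈Real.exp (4 ^ B + 2)⌉₊ ≤ m := (le_max_right _ _).trans ((le_max_right _ _).trans hmM)
  have hm0 : (0 : ℝ) < m := by exact_mod_cast (by omega : 0 < m)
  have hlm : (4 : ℝ) ^ B + 2 ≤ Real.log m := by
    rw [Real.le_log_iff_exp_le hm0]
    exact (Nat.le_ceil _).trans (by exact_mod_cast hme)
  have h4B : (1 : ℝ) ≤ 4 ^ B := one_le_pow₀ (by norm_num)
  have hm2P : m * m ≤ P := Nat.sqrt_le P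
  have hPm : P < (m + 1) * (m + 1) := Nat.lt_succ_sqrt P
  have hP0 : (0 : ℝ) < P := by
    have : 0 < m * m := Nat.mul_pos (by omega) (by omega)
    exact_mod_cast (by omega : 0 < P)
  -- p is larger than m
  have hpm : m < p := by
    by_contra hle
    push Not at hle
    have hlP : Real.log P ≤ 4 * Real.log m := by
      have h1 : P ≤ m ^ 4 := by
        have : (m + 1) * (m + 1) ≤ m ^ 4 := by
          have h2 : m + 1 ≤ m ^ 2 := by nlinarith
          calc (m + 1) * (m + 1) ≤ m ^ 2 * m ^ 2 := Nat.mul_le_mul h2 h2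
            _ = m ^ 4 := by ring
        omega
      have h2 : (P : ℝ) ≤ (m : ℝ) ^ 4 := by exact_mod_cast h1
      calc Real.log P ≤ Real.log ((m : ℝ) ^ 4) := Real.log_le_log hP0 h2
        _ = 4 * Real.log m := by rw [Real.log_pow]; norm_num
    set r' : ℕ := ⌊(Real.log m) ^ (B + 1)⌋₊ with hr'
    have hlm0 : (0 : ℝ) ≤ Real.log m := by linarith
    have hlm1 : (1 : ℝ) ≤ Real.log m := by linarith
    have hr'1 : (r' : ℝ) ≤ (Real.log m) ^ (B + 1) := Nat.floor_le (by positivity)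
    have hr'2 : (Real.log m) ^ (B + 1) - 1 < r' := Nat.sub_one_lt_floor _
    have hgt : (Real.log P) ^ B < r' := by
      have hlP0 : 0 ≤ Real.log P := Real.log_natCast_nonneg P
      have e1 : (Real.log P) ^ B ≤ (4 * Real.log m) ^ B := pow_le_pow_left₀ hlP0 hlP B
      have e2 : (4 * Real.log m) ^ B = 4 ^ B * (Real.log m) ^ B := mul_pow _ _ _
      have e3 : 1 ≤ (Real.log m) ^ B := one_le_pow₀ hlm1
      have e4 : (4 ^ B + 2) * (Real.log m) ^ B ≤ (Real.log m) ^ (B + 1) := by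
        rw [pow_succ, mul_comm ((Real.log m) ^ B)]
        gcongr
      nlinarith
    have hr'pos : 1 ≤ r' := by
      have h1 : (0 : ℝ) ≤ (Real.log P) ^ B := pow_nonneg (Real.log_natCast_nonneg P) B
      have : (0 : ℝ) < r' := by linarith
      exact_mod_cast this
    obtain ⟨-, g2⟩ := hX0 m hmX r' hr'pos hr'1
    have hsub : (Ioc m ⌊(1 + 1 / (32 * (r' : ℝ) ^ 4)) * m⌋₊).filter Nat.Prime ⊆
        (Finset.Icc a b).filter Nat.Prime := by
      intro w hw
      obtain ⟨hw1, hw2⟩ := Finset.mem_filter.1 hw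
      obtain ⟨hw3, hw4⟩ := Finset.mem_Ioc.1 hw1
      have hr'R : (1 : ℝ) ≤ (r' : ℝ) ^ 4 := one_le_pow₀ (by exact_mod_cast hr'pos)
      have h5 : ⌊(1 + 1 / (32 * (r' : ℝ) ^ 4)) * m⌋₊ ≤ 2 * m := by
        have h6 : (1 + 1 / (32 * (r' : ℝ) ^ 4)) * m ≤ ((2 * m : ℕ) : ℝ) := by
          have h7 : 1 / (32 * (r' : ℝ) ^ 4) ≤ 1 := by
            rw [div_le_one (by positivity)]; linarith
          push_cast
          nlinarith
        exact Nat.floor_le_of_le h6
      have h8 : 2 * m ≤ m * m := Nat.mul_le_mul_right _ hm2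
      exact Finset.mem_filter.2 ⟨Finset.mem_Icc.2 ⟨by omega, by omega⟩, hw2⟩
    have hc := g2.trans (Finset.card_le_card hsub)
    have hc' : (r' : ℝ) ≤ (((Finset.Icc a b).filter Nat.Prime).card : ℝ) := by exact_mod_cast hc
    linarith
  have hp0 : (0 : ℝ) < p := by exact_mod_cast (by omega : 0 < p)
  have hPp : Real.log P ≤ 2 * Real.log p := by
    have h1 : P ≤ p ^ 2 := by
      have : (m + 1) * (m + 1) ≤ p * p := Nat.mul_le_mul hpm hpm
      rw [pow_two]; omega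
    have h2 : (P : ℝ) ≤ (p : ℝ) ^ 2 := by exact_mod_cast h1
    calc Real.log P ≤ Real.log ((p : ℝ) ^ 2) := Real.log_le_log hP0 h2
      _ = 2 * Real.log p := by rw [Real.log_pow]; norm_num
  have hlp : Real.log m ≤ Real.log p := Real.log_le_log hm0 (by exact_mod_cast hpm.le)
  have hlP0 : 0 ≤ Real.log P := Real.log_natCast_nonneg P
  have h24 : (2 : ℝ) ^ B ≤ 4 ^ B := pow_le_pow_left₀ (by norm_num) (by norm_num) B
  have hlp0 : 0 ≤ Real.log p := Real.log_natCast_nonneg p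
  calc (((Finset.Icc a b).filter Nat.Prime).card : ℝ) ≤ (Real.log P) ^ B := hcard
    _ ≤ (2 * Real.log p) ^ B := pow_le_pow_left₀ hlP0 hPp B
    _ = 2 ^ B * (Real.log p) ^ B := mul_pow _ _ _
    _ ≤ Real.log p * (Real.log p) ^ B := by
        apply mul_le_mul_of_nonneg_right _ (by positivity)
        linarith
    _ = (Real.log p) ^ (B + 1) := by ring

/-- Blocks of at most `(log n) ^ c` consecutive primes, `c < 1`. -/
theorem consecutive_log_n (c : ℝ) (hc : c < 1) : Set.Finite {y : ℕ × ℕ | 2 ≤ y.2 ∧ y.2 + 2 ≤ y.1 ∧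
    ∃ a b : ℕ, (((Finset.Icc a b).filter Nat.Prime).card : ℝ) ≤ (Real.log y.1) ^ c ∧
      Nat.choose y.1 y.2 = ∏ p ∈ (Finset.Icc a b).filter Nat.Prime, p} := by
  set c' := max c 0 with hc'
  have hc'0 : 0 ≤ c' := le_max_right _ _
  have hc'1 : c' < 1 := max_lt hc (by norm_num)
  set B : ℕ := ⌈c' / (1 - c')⌉₊ with hB
  obtain ⟨M0, hM2, hM⟩ := smallest B
  set T : ℕ := (M0 ^ 2) ^ (M0 ^ 2) with hT
  apply Set.Finite.subset ((consecutive_log (B + 1)).union
    ((Set.finite_Iic T).prod (Set.finite_Iic T)))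
  rintro ⟨n, k⟩ ⟨hk, hkn, a, b, hcard, hC⟩
  simp only at hk hkn hC hcard
  set s := (Finset.Icc a b).filter Nat.Prime with hs
  have hsp : ∀ q ∈ s, q.Prime := fun q hq => (Finset.mem_filter.1 hq).2
  have hsab : ∀ q ∈ s, a ≤ q ∧ q ≤ b := fun q hq => Finset.mem_Icc.1 (Finset.mem_filter.1 hq).1
  have hnC := le_choose n k (by omega) (by omega)
  rcases s.eq_empty_or_nonempty with hse | hsn
  · exfalso
    rw [hC, hse, Finset.prod_empty] at hnC
    omega
  set P := s.max' hsn with hP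
  have hPs : P ∈ s := Finset.max'_mem _ _
  have hP2 : 2 ≤ P := (hsp P hPs).two_le
  have hnP : n ≤ P ^ s.card := by
    rw [hC] at hnC
    exact hnC.trans (Finset.prod_le_pow_card s _ P (fun q hq => Finset.le_max' _ _ hq))
  rcases Nat.lt_or_ge P (M0 ^ 2) with hlt | hge
  · right
    have hcP : s.card ≤ P := by
      have hsub : s ⊆ Finset.Icc 1 P := by
        intro q hq
        exact Finset.mem_Icc.2 ⟨(hsp q hq).pos, Finset.le_max' _ _ hq⟩
      have := Finset.card_le_card hsub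
      simpa using this
    have hnT : n ≤ T := by
      calc n ≤ P ^ s.card := hnP
        _ ≤ P ^ (M0 ^ 2) := Nat.pow_le_pow_right (by omega) (by omega)
        _ ≤ T := Nat.pow_le_pow_left hlt.le _
    refine ⟨hnT, ?_⟩
    simp only [Set.mem_Iic]
    omega
  · left
    have hn4 : (4 : ℝ) ≤ n := by exact_mod_cast (by omega : 4 ≤ n)
    have hln : 1 ≤ Real.log n := by
      rw [Real.le_log_iff_exp_le (by linarith)]
      have := Real.exp_one_lt_d9
      linarith
    have hlog : Real.log n ≤ (s.card : ℝ) * Real.log P := by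
      rw [← Real.log_pow]
      apply Real.log_le_log (by linarith)
      exact_mod_cast hnP
    have hcard' : (s.card : ℝ) ≤ (Real.log n) ^ c' :=
      hcard.trans (Real.rpow_le_rpow_of_exponent_le hln (le_max_left _ _))
    obtain ⟨-, h2⟩ := expo c' hc'0 hc'1 (Real.log n) (Real.log P) s.card hln hlog hcard'
      (Real.log_natCast_nonneg P)
    refine ⟨hk, hkn, a, b, ?_, hC⟩
    intro q hq
    exact hM a b q P hge (hsab q hq).1 (hsab P hPs).2 (hsp q hq) h2

end Pool.Agent.helper885_bc
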